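import Pool.Agent.helper88.TC.MV

/-!
# The two parity rules (module TC-R)
-/

set_option autoImplicit false
open Topology

noncomputable section
namespace Pool.Agent.helper73.TC

namespace R
variable (F : Type) [Field F]

theorem sum_push {X Y : Type} [TopologicalSpace X] [TopologicalSpace Y] (f : C(X, Y)) (n : ℕ)
    (z : SC F X n) : ((push F f n z).sum fun _ c => c) = z.sum fun _ c => c := by
  show ((Finsupp.mapDomain (fun σ : Sing X n => f.comp σ) z).sum fun _ c => c) = _
  exact Finsupp.sum_mapDomain_index (fun _ => rfl) (fun _ _ _ => rfl)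

theorem bdy_of_isEmpty {X : Type} [TopologicalSpace X] [IsEmpty X] (n : ℕ) (z : SC F X n) :
    z ∈ bdy F X n := by
  have : IsEmpty (Sing X n) := ⟨fun σ => isEmptyElim (σ (vertex0 n))⟩
  rw [Subsingleton.elim z 0]
  exact Submodule.zero_mem _
where
  vertex0 (n : ℕ) : stdSimplex ℝ (Fin (n + 1)) := ⟨Pi.single 0 1, single_mem_stdSimplex ℝ 0⟩

variable {X : Type} [TopologicalSpace X] (U V : Set X)

/-- a cycle of even degree in a space of class `Par1` is a boundary, provided its sum is zero in degree `0` -/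
theorem bdy_of_par1 {Y : Type} [TopologicalSpace Y] (h1 : Par1 F Y) (n : ℕ) (hn : Even n)
    (c : SC F Y n) (hc : c ∈ cyc F Y n) (h0 : n = 0 → (c.sum fun _ x => x) = 0) :
    c ∈ bdy F Y n := by
  rcases Nat.eq_zero_or_pos n with rfl | hpos
  · rcases h1.2 with he | hp
    · exact bdy_of_isEmpty F 0 c
    · exact bdy_zero_of_path F c (h0 rfl)
  · have h2 : 2 ≤ n := by
      rcases hn with ⟨k, rfl⟩
      omega
    exact h1.1 n hn h2 hc

theorem sum_zero_of_push {Y Z : Type} [TopologicalSpace Y] [TopologicalSpace Z] (f : C(Y, Z))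
    (n : ℕ) (c : SC F Y n) (h : push F f n c ∈ bdy F Z n) : n = 0 → (c.sum fun _ x => x) = 0 := by
  rintro rfl
  rw [← sum_push F f]
  exact sum_bdy_zero F _ h

end R

section R
variable (F : Type) [Field F] {X : Type} [TopologicalSpace X] (U V : Set X)

open R

theorem rule0 (hU : IsOpen U) (hV : IsOpen V) (hUV : U ∪ V = Set.univ)
    [ContractibleSpace V] (h1 : Par1 F ↥(U ∩ V)) (h0 : Par0 F U) :
    Par0 F X ∧ ∀ n, HI F (inc U) n := by
  constructor
  · intro n hn z hz
    obtain ⟨m, rfl⟩ : ∃ m, n = m + 1 := ⟨n - 1, by obtain ⟨k, rfl⟩ := hn; omega⟩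
    have hm : Even m := by
      obtain ⟨k, hk⟩ := hn
      exact ⟨k, by omega⟩
    obtain ⟨c, hc, hcU, hcV, H⟩ := mv2 F U V hU hV hUV m z hz
    have hcb : c ∈ bdy F ↥(U ∩ V) m :=
      bdy_of_par1 F h1 m hm c hc (sum_zero_of_push F (incL U V) m c hcU)
    obtain ⟨a, ha, b, hb, hab⟩ := H hcb
    have ha' : a ∈ bdy F U (m + 1) := h0 (m + 1) hn ha
    have hb' : b ∈ bdy F V (m + 1) := HZ_of_contractible F (m + 1) (by omega) hb
    have := Submodule.add_mem _ hab
      (Submodule.add_mem _ (push_bdy F (inc U) (m + 1) a ha') (push_bdy F (inc V) (m + 1) b hb'))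
    rwa [sub_add_cancel] at this
  · intro n z hz hzb
    rcases Nat.even_or_odd n with hn | hn
    · obtain ⟨c, hc, hcU, hcV⟩ := mv1 F U V hU hV hUV n z hz 0 (Submodule.zero_mem _)
        (by rwa [map_zero, sub_zero])
      rw [zero_sub, Submodule.neg_mem_iff] at hcV
      have hcb : c ∈ bdy F ↥(U ∩ V) n :=
        bdy_of_par1 F h1 n hn c hc (sum_zero_of_push F (incR U V) n c hcV)
      have := Submodule.add_mem _ hcU (push_bdy F (incL U V) n c hcb)
      rwa [sub_add_cancel] at this
    · exact h0 n hn hz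

theorem rule1 (hU : IsOpen U) (hV : IsOpen V) (hUV : U ∪ V = Set.univ)
    [ContractibleSpace V] [Nonempty ↥(U ∩ V)] (h0 : Par0 F ↥(U ∩ V)) (h1 : Par1 F U) :
    Par1 F X := by
  obtain ⟨x0⟩ := ‹Nonempty ↥(U ∩ V)›
  constructor
  · intro n hn h2 z hz
    obtain ⟨m, rfl⟩ : ∃ m, n = m + 1 := ⟨n - 1, by omega⟩
    have hm : Odd m := by
      obtain ⟨k, hk⟩ := hn
      exact ⟨k - 1, by omega⟩
    obtain ⟨c, hc, hcU, hcV, H⟩ := mv2 F U V hU hV hUV m z hz
    obtain ⟨a, ha, b, hb, hab⟩ := H (h0 m hm hc)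
    have ha' : a ∈ bdy F U (m + 1) := h1.1 (m + 1) hn h2 ha
    have hb' : b ∈ bdy F V (m + 1) := HZ_of_contractible F (m + 1) (by omega) hb
    have := Submodule.add_mem _ hab
      (Submodule.add_mem _ (push_bdy F (inc U) (m + 1) a ha') (push_bdy F (inc V) (m + 1) b hb'))
    rwa [sub_add_cancel] at this
  · right
    have hUp : PathConnectedSpace U := by
      rcases h1.2 with he | hp
      · exact (he.false ⟨x0.1, x0.2.1⟩).elim
      · exact hp
    have hVp : PathConnectedSpace V := inferInstance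
    have h3 := IsPathConnected.union (isPathConnected_iff_pathConnectedSpace.2 hUp)
      (isPathConnected_iff_pathConnectedSpace.2 hVp) ⟨x0.1, x0.2⟩
    rw [hUV] at h3
    exact pathConnectedSpace_iff_univ.2 h3

end R

end Pool.Agent.helper73.TC
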