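import Pool.Agent.helper96.TC.S4
import Pool.Agent.helper96.TC.H0

/-!
# Mayer-Vietoris for two open sets (module TC-MV)
-/

set_option autoImplicit false
open Topology

noncomputable section
namespace Pool.Agent.helper73.TC

namespace MV
variable (F : Type) [Field F] {X : Type} [TopologicalSpace X]

theorem inc_comp_injective (U : Set X) (n : ℕ) :
    Function.Injective (fun σ : Sing U n => (inc U).comp σ) := by
  intro σ τ h
  ext1 t
  exact Subtype.ext (ContinuousMap.congr_fun h t)

theorem push_inc_injective (U : Set X) (n : ℕ) : Function.Injective (push F (inc U) n) :=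
  Finsupp.mapDomain_injective (inc_comp_injective U n)

end MV

section MV
variable (F : Type) [Field F] {X : Type} [TopologicalSpace X] (U V : Set X)

/-- the inclusion `U ∩ V → U` -/
def incL : C(↥(U ∩ V), U) := ⟨fun x => ⟨x.1, x.2.1⟩, by fun_prop⟩
/-- the inclusion `U ∩ V → V` -/
def incR : C(↥(U ∩ V), V) := ⟨fun x => ⟨x.1, x.2.2⟩, by fun_prop⟩

namespace MV

theorem incL_comp_injective (n : ℕ) :
    Function.Injective (fun σ : Sing ↥(U ∩ V) n => (incL U V).comp σ) := by
  intro σ τ h
  ext1 t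
  exact Subtype.ext (congrArg (fun y : U => (y : X)) (ContinuousMap.congr_fun h t))

theorem push_incL_injective (n : ℕ) : Function.Injective (push F (incL U V) n) :=
  Finsupp.mapDomain_injective (incL_comp_injective U V n)

theorem push_inc_incL (n : ℕ) (c : SC F ↥(U ∩ V) n) :
    push F (inc U) n (push F (incL U V) n c) = push F (inc V) n (push F (incR U V) n c) := by
  rw [← push_comp, ← push_comp]
  rfl

/-- a chain of `U` and a chain of `V` that agree in `X` come from `U ∩ V` -/
theorem exists_inter (n : ℕ) (p : SC F U n) (q : SC F V n)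
    (h : push F (inc U) n p = push F (inc V) n q) :
    ∃ c : SC F ↥(U ∩ V) n, push F (incL U V) n c = p ∧ push F (incR U V) n c = q := by
  classical
  have hsupp : (p.support : Set (Sing U n)) ⊆
      Set.range (fun σ : Sing ↥(U ∩ V) n => (incL U V).comp σ) := by
    intro σ hσ
    have h1 : push F (inc U) n p ((inc U).comp σ) = p σ :=
      Finsupp.mapDomain_apply (inc_comp_injective U n) p σ
    have h2 : (inc U).comp σ ∈ (push F (inc V) n q).support := by
      rw [Finsupp.mem_support_iff, ← h, h1]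
      exact Finsupp.mem_support_iff.1 hσ
    have h3 : (inc U).comp σ ∈ Finset.image (fun τ : Sing V n => (inc V).comp τ) q.support :=
      Finsupp.mapDomain_support h2
    obtain ⟨τ, -, hτ⟩ := Finset.mem_image.1 h3
    have h4 : ∀ t, (σ t : X) ∈ V := by
      intro t
      have := ContinuousMap.congr_fun hτ t
      have h5 : (τ t : X) = (σ t : X) := this
      rw [← h5]
      exact (τ t).2
    refine ⟨⟨fun t => ⟨(σ t : X), (σ t).2, h4 t⟩, by fun_prop⟩, ?_⟩
    ext1 t
    rfl
  refine ⟨p.comapDomain (fun σ : Sing ↥(U ∩ V) n => (incL U V).comp σ)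
    (incL_comp_injective U V n).injOn, ?_, ?_⟩
  · exact Finsupp.mapDomain_comapDomain _ (incL_comp_injective U V n) _ hsupp
  · apply push_inc_injective F V n
    rw [← push_inc_incL, ← h]
    congr 1
    exact Finsupp.mapDomain_comapDomain _ (incL_comp_injective U V n) _ hsupp

theorem cyc_of_push_incL (n : ℕ) (c : SC F ↥(U ∩ V) n) (h : push F (incL U V) n c ∈ cyc F U n) :
    c ∈ cyc F ↥(U ∩ V) n := by
  cases n with
  | zero => trivial
  | succ n =>
    have h1 : bd F U n (push F (incL U V) (n + 1) c) = 0 := h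
    rw [push_bd] at h1
    exact push_incL_injective F U V n (by rw [h1, map_zero])

theorem bdy_le_cyc {Y : Type} [TopologicalSpace Y] (n : ℕ) (z : SC F Y n) (h : z ∈ bdy F Y n) :
    z ∈ cyc F Y n := by
  cases n with
  | zero => trivial
  | succ n =>
    obtain ⟨w, rfl⟩ := h
    exact LinearMap.congr_fun (bd_bd F n) w

end MV

open MV

theorem mv1 (hU : IsOpen U) (hV : IsOpen V) (hUV : U ∪ V = Set.univ) (n : ℕ)
    (a : SC F U n) (ha : a ∈ cyc F U n) (b : SC F V n) (hb : b ∈ cyc F V n)
    (h : push F (inc U) n a - push F (inc V) n b ∈ bdy F X n) :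
    ∃ c ∈ cyc F ↥(U ∩ V) n, a - push F (incL U V) n c ∈ bdy F U n ∧
      b - push F (incR U V) n c ∈ bdy F V n := by
  clear hb
  obtain ⟨u', v', huv⟩ := small_bdy F U V hU hV hUV n a (-b) (by rwa [map_neg, ← sub_eq_add_neg])
  rw [map_neg, map_add, push_bd, push_bd] at huv
  obtain ⟨c, hc1, hc2⟩ := exists_inter F U V n (a - bd F U n u') (b + bd F V n v') (by
    rw [map_sub, map_add, sub_eq_iff_eq_add, add_assoc, ← sub_eq_iff_eq_add', sub_eq_add_neg, huv]
    abel)
  refine ⟨c, cyc_of_push_incL F U V n c ?_, ?_, ?_⟩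
  · rw [hc1]
    exact Submodule.sub_mem _ ha (bdy_le_cyc F n _ ⟨u', rfl⟩)
  · rw [hc1, sub_sub_cancel]
    exact ⟨u', rfl⟩
  · rw [hc2, sub_add_cancel_left]
    exact Submodule.neg_mem _ ⟨v', rfl⟩

theorem mv2 (hU : IsOpen U) (hV : IsOpen V) (hUV : U ∪ V = Set.univ) (n : ℕ)
    (z : SC F X (n + 1)) (hz : z ∈ cyc F X (n + 1)) :
    ∃ c ∈ cyc F ↥(U ∩ V) n, push F (incL U V) n c ∈ bdy F U n ∧
      push F (incR U V) n c ∈ bdy F V n ∧
      (c ∈ bdy F ↥(U ∩ V) n → ∃ a ∈ cyc F U (n + 1), ∃ b ∈ cyc F V (n + 1),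
        z - (push F (inc U) (n + 1) a + push F (inc V) (n + 1) b) ∈ bdy F X (n + 1)) := by
  obtain ⟨u, v, huv⟩ := small_cycle F U V hU hV hUV (n + 1) z hz
  have h1 : bd F X n (z - (push F (inc U) (n + 1) u + push F (inc V) (n + 1) v)) = 0 :=
    bdy_le_cyc F (n + 1) _ huv
  have h2 : bd F X n z = 0 := hz
  rw [map_sub, h2, zero_sub, neg_eq_zero, map_add, push_bd, push_bd] at h1
  obtain ⟨c, hc1, hc2⟩ := exists_inter F U V n (bd F U n u) (-(bd F V n v)) (by
    rw [map_neg]; exact eq_neg_of_add_eq_zero_left h1)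
  refine ⟨c, cyc_of_push_incL F U V n c ?_, ?_, ?_, ?_⟩
  · rw [hc1]
    exact bdy_le_cyc F n _ ⟨u, rfl⟩
  · rw [hc1]
    exact ⟨u, rfl⟩
  · rw [hc2]
    exact Submodule.neg_mem _ ⟨v, rfl⟩
  · rintro ⟨e, rfl⟩
    refine ⟨u - push F (incL U V) (n + 1) e, ?_, v + push F (incR U V) (n + 1) e, ?_, ?_⟩
    · show bd F U n _ = 0
      rw [map_sub, push_bd, hc1, sub_self]
    · show bd F V n _ = 0
      rw [map_add, push_bd, hc2, add_neg_cancel]
    · rw [map_sub, map_add, push_inc_incL]
      convert huv using 2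
      abel

end MV

end Pool.Agent.helper73.TC
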