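import Pool.Agent.helper20.TC.S1
import Pool.Agent.helper87.TC.S2

/-!
# Transport of the subdivision operators to singular chains (module TC-S3)
-/

set_option autoImplicit false
open Topology

noncomputable section
namespace Pool.Agent.helper73.TC

namespace S3

/-! ### affine naturality -/

theorem areal_apply {N m : ℕ} (v : AS N m) (t : stdSimplex ℝ (Fin (m + 1))) (j : Fin (N + 1)) :
    (areal v t : Fin (N + 1) → ℝ) j = ∑ i, (t : Fin (m + 1) → ℝ) i * (v i : Fin (N + 1) → ℝ) j :=
  rfl

theorem vert_apply (m : ℕ) (i j : Fin (m + 1)) :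
    (vert m i : Fin (m + 1) → ℝ) j = (Pi.single i 1 : Fin (m + 1) → ℝ) j := rfl

theorem areal_areal {N M m : ℕ} (u : AS N M) (v : AS M m) (t : stdSimplex ℝ (Fin (m + 1))) :
    areal u (areal v t) = areal (fun i => areal u (v i)) t := by
  refine stdSimplex.ext (funext fun j => ?_)
  rw [areal_apply, areal_apply]
  simp_rw [areal_apply, Finset.sum_mul, Finset.mul_sum]
  rw [Finset.sum_comm]
  refine Finset.sum_congr rfl fun i _ => Finset.sum_congr rfl fun k _ => ?_
  ring

theorem areal_comp {N M m : ℕ} (u : AS N M) (v : AS M m) :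
    (areal u).comp (areal v) = areal (areal u ∘ v) := by
  ext1 t
  exact areal_areal u v t

theorem areal_vert {N m : ℕ} (v : AS N m) (i : Fin (m + 1)) : areal v (vert m i) = v i := by
  refine stdSimplex.ext (funext fun j => ?_)
  rw [areal_apply]
  simp only [vert_apply]
  rw [Finset.sum_eq_single i]
  · simp
  · intro b _ hb
    simp [hb]
  · simp

theorem areal_comp_vert {N m : ℕ} (v : AS N m) : (areal v) ∘ vert m = v := by
  funext i
  exact areal_vert v i

theorem areal_vert_id (m : ℕ) (t : stdSimplex ℝ (Fin (m + 1))) : areal (vert m) t = t := by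
  refine stdSimplex.ext (funext fun j => ?_)
  rw [areal_apply]
  simp only [vert_apply]
  rw [Finset.sum_eq_single j]
  · simp
  · intro b _ hb
    simp [hb.symm]
  · simp

theorem areal_vert_eq (m : ℕ) : areal (vert m) = ContinuousMap.id _ := by
  ext1 t
  exact areal_vert_id m t

theorem faceMap_eq (n : ℕ) (i : Fin (n + 2)) : faceMap n i = areal (vert (n + 1) ∘ i.succAbove) := by
  ext1 t
  refine stdSimplex.ext (funext fun j => ?_)
  rw [areal_apply]
  simp only [faceMap, ContinuousMap.coe_mk, vert_apply, Function.comp_apply]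
  rw [stdSimplex.map_coe]
  rw [FunOnFinite.linearMap_apply_apply]
  rw [Finset.sum_filter]
  refine Finset.sum_congr rfl fun k _ => ?_
  by_cases h : i.succAbove k = j
  · subst h; simp
  · rw [if_neg h]
    simp [Ne.symm h]

/-! ### push-forward of affine chains -/

section
variable (F : Type) [Field F]

/-- affine chains pushed forward by an affine map -/
def amap {N M : ℕ} (u : AS N M) (m : ℕ) : AC F M m →ₗ[F] AC F N m :=
  Finsupp.lmapDomain F F (fun v : AS M m => (areal u ∘ v : AS N m))

theorem amap_single {N M : ℕ} (u : AS N M) (m : ℕ) (v : AS M m) (a : F) :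
    amap F u m (Finsupp.single v a) = Finsupp.single (areal u ∘ v : AS N m) a := by
  simp [amap, Finsupp.lmapDomain_apply, Finsupp.mapDomain_single]

theorem acone_single {N m : ℕ} (b : stdSimplex ℝ (Fin (N + 1))) (v : AS N m) (a : F) :
    acone F N b (Finsupp.single v a) = Finsupp.single (Fin.cons b v : AS N (m + 1)) a := by
  simp [acone, Finsupp.lmapDomain_apply, Finsupp.mapDomain_single]

theorem abd_single {N : ℕ} (m : ℕ) (v : AS N (m + 1)) (a : F) :
    abd F N m (Finsupp.single v a) = ∑ i : Fin (m + 2), (-1 : F) ^ (i : ℕ) •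
      Finsupp.single (v ∘ i.succAbove : AS N m) a := by
  simp [abd, Finsupp.lmapDomain_apply, Finsupp.mapDomain_single]

theorem asing_single {X : Type} [TopologicalSpace X] {n : ℕ} (σ : Sing X n) (m : ℕ) (v : AS n m)
    (a : F) : asing F σ m (Finsupp.single v a) = Finsupp.single (σ.comp (areal v)) a := by
  simp [asing, Finsupp.lmapDomain_apply, Finsupp.mapDomain_single]

theorem bd_single {X : Type} [TopologicalSpace X] (n : ℕ) (σ : Sing X (n + 1)) (a : F) :
    bd F X n (Finsupp.single σ a) = ∑ i : Fin (n + 2), (-1 : F) ^ (i : ℕ) •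
      Finsupp.single (σ.comp (faceMap n i)) a := by
  simp [bd, Finsupp.lmapDomain_apply, Finsupp.mapDomain_single]

theorem push_single {X Y : Type} [TopologicalSpace X] [TopologicalSpace Y] (f : C(X, Y)) (n : ℕ)
    (σ : Sing X n) (a : F) : push F f n (Finsupp.single σ a) = Finsupp.single (f.comp σ) a := by
  simp [push, Finsupp.lmapDomain_apply, Finsupp.mapDomain_single]

theorem Sd_single {X : Type} [TopologicalSpace X] (n : ℕ) (σ : Sing X n) (a : F) :
    Sd F X n (Finsupp.single σ a) = a • asing F σ n (aSd F n n (Finsupp.single (vert n) 1)) := by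
  simp [Sd]

theorem Th_single {X : Type} [TopologicalSpace X] (n : ℕ) (σ : Sing X n) (a : F) :
    Th F X n (Finsupp.single σ a) =
      a • asing F σ (n + 1) (aT F n n (Finsupp.single (vert n) 1)) := by
  simp [Th]

theorem aSd_single {N : ℕ} (m : ℕ) (v : AS N (m + 1)) (a : F) :
    aSd F N (m + 1) (Finsupp.single v a) =
      a • acone F N (abary v) (aSd F N m (abd F N m (Finsupp.single v 1))) := by
  simp [aSd]

theorem aT_single {N : ℕ} (m : ℕ) (v : AS N (m + 1)) (a : F) :
    aT F N (m + 1) (Finsupp.single v a) =
      a • acone F N (abary v)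
        (Finsupp.single v 1 - aT F N m (abd F N m (Finsupp.single v 1))) := by
  simp [aT]

theorem abary_comp {N M m : ℕ} (u : AS N M) (v : AS M m) :
    abary (areal u ∘ v) = areal u (abary v) := by
  rw [abary, abary, ← areal_comp]
  rfl

theorem amap_acone {N M m : ℕ} (u : AS N M) (b : stdSimplex ℝ (Fin (M + 1))) (c : AC F M m) :
    amap F u (m + 1) (acone F M b c) = acone F N (areal u b) (amap F u m c) := by
  induction c using Finsupp.induction_linear with
  | zero => simp
  | add x y hx hy => simp only [map_add, hx, hy]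
  | single v a =>
    rw [acone_single, amap_single, amap_single, acone_single]
    congr 1
    funext i
    refine Fin.cases ?_ (fun k => ?_) i <;> simp

theorem amap_abd {N M : ℕ} (u : AS N M) (m : ℕ) (c : AC F M (m + 1)) :
    amap F u m (abd F M m c) = abd F N m (amap F u (m + 1) c) := by
  induction c using Finsupp.induction_linear with
  | zero => simp
  | add x y hx hy => simp only [map_add, hx, hy]
  | single v a =>
    rw [abd_single, amap_single, abd_single, map_sum]
    refine Finset.sum_congr rfl fun i _ => ?_
    rw [map_smul, amap_single]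
    rfl

theorem amap_aSd {N M : ℕ} (u : AS N M) (m : ℕ) (c : AC F M m) :
    amap F u m (aSd F M m c) = aSd F N m (amap F u m c) := by
  induction m with
  | zero => rfl
  | succ m ih =>
    induction c using Finsupp.induction_linear with
    | zero => simp
    | add x y hx hy => simp only [map_add, hx, hy]
    | single v a =>
      rw [aSd_single, amap_single, aSd_single, map_smul, amap_acone, ih, amap_abd, amap_single,
        abary_comp]

theorem amap_aT {N M : ℕ} (u : AS N M) (m : ℕ) (c : AC F M m) :
    amap F u (m + 1) (aT F M m c) = aT F N m (amap F u m c) := by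
  induction m with
  | zero => simp [aT]
  | succ m ih =>
    induction c using Finsupp.induction_linear with
    | zero => simp
    | add x y hx hy => simp only [map_add, hx, hy]
    | single v a =>
      rw [aT_single, amap_single, aT_single, map_smul, amap_acone, map_sub, ih, amap_abd,
        amap_single, abary_comp]

/-! ### from affine to singular chains -/

variable {X : Type} [TopologicalSpace X]

theorem asing_comp {N M : ℕ} (σ : Sing X N) (u : AS N M) (m : ℕ) (c : AC F M m) :
    asing F (σ.comp (areal u)) m c = asing F σ m (amap F u m c) := by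
  induction c using Finsupp.induction_linear with
  | zero => simp
  | add x y hx hy => simp only [map_add, hx, hy]
  | single v a =>
    rw [asing_single, amap_single, asing_single, ContinuousMap.comp_assoc, areal_comp]

theorem asing_abd {N : ℕ} (σ : Sing X N) (m : ℕ) (c : AC F N (m + 1)) :
    bd F X m (asing F σ (m + 1) c) = asing F σ m (abd F N m c) := by
  induction c using Finsupp.induction_linear with
  | zero => simp
  | add x y hx hy => simp only [map_add, hx, hy]
  | single v a =>
    rw [asing_single, bd_single, abd_single, map_sum]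
    refine Finset.sum_congr rfl fun i _ => ?_
    rw [map_smul, asing_single, ContinuousMap.comp_assoc, faceMap_eq, areal_comp]
    congr 4
    funext k
    exact areal_vert v _

theorem Sd_asing {N : ℕ} (σ : Sing X N) (m : ℕ) (c : AC F N m) :
    Sd F X m (asing F σ m c) = asing F σ m (aSd F N m c) := by
  induction c using Finsupp.induction_linear with
  | zero => simp
  | add x y hx hy => simp only [map_add, hx, hy]
  | single v a =>
    rw [asing_single, Sd_single, asing_comp, amap_aSd, amap_single, areal_comp_vert,
      ← map_smul, ← map_smul, Finsupp.smul_single, smul_eq_mul, mul_one]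

theorem Th_asing {N : ℕ} (σ : Sing X N) (m : ℕ) (c : AC F N m) :
    Th F X m (asing F σ m c) = asing F σ (m + 1) (aT F N m c) := by
  induction c using Finsupp.induction_linear with
  | zero => simp
  | add x y hx hy => simp only [map_add, hx, hy]
  | single v a =>
    rw [asing_single, Th_single, asing_comp, amap_aT, amap_single, areal_comp_vert,
      ← map_smul, ← map_smul, Finsupp.smul_single, smul_eq_mul, mul_one]

theorem asing_vert (n : ℕ) (σ : Sing X n) (a : F) :
    asing F σ n (Finsupp.single (vert n) a) = Finsupp.single σ a := by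
  rw [asing_single, areal_vert_eq, ContinuousMap.comp_id]

end

end S3

open S3

section S3
variable (F : Type) [Field F] (X : Type) [TopologicalSpace X]

theorem bd_Sd (n : ℕ) (c : SC F X (n + 1)) :
    bd F X n (Sd F X (n + 1) c) = Sd F X n (bd F X n c) := by
  induction c using Finsupp.induction_linear with
  | zero => simp
  | add x y hx hy => simp only [map_add, hx, hy]
  | single σ a =>
    rw [← asing_vert F (n + 1) σ a, Sd_asing, asing_abd, asing_abd, Sd_asing, abd_aSd]

theorem Sd_zero (c : SC F X 0) : Sd F X 0 c = c := by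
  induction c using Finsupp.induction_linear with
  | zero => simp
  | add x y hx hy => simp only [map_add, hx, hy]
  | single σ a =>
    rw [← asing_vert F 0 σ a, Sd_asing]
    rfl

theorem bd_Th (n : ℕ) (c : SC F X (n + 1)) :
    bd F X (n + 1) (Th F X (n + 1) c) + Th F X n (bd F X n c) = c - Sd F X (n + 1) c := by
  induction c using Finsupp.induction_linear with
  | zero => simp
  | add x y hx hy =>
    simp only [map_add]
    rw [show bd F X (n + 1) (Th F X (n + 1) x) + bd F X (n + 1) (Th F X (n + 1) y) +
      (Th F X n (bd F X n x) + Th F X n (bd F X n y)) =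
      (bd F X (n + 1) (Th F X (n + 1) x) + Th F X n (bd F X n x)) +
      (bd F X (n + 1) (Th F X (n + 1) y) + Th F X n (bd F X n y)) by abel, hx, hy]
    abel
  | single σ a =>
    rw [← asing_vert F (n + 1) σ a, Th_asing, Sd_asing, asing_abd, asing_abd, Th_asing, ← map_add,
      abd_aT, map_sub]

theorem S3.push_asing {Y : Type} [TopologicalSpace Y] (f : C(X, Y)) {N : ℕ} (σ : Sing X N) (m : ℕ)
    (c : AC F N m) : push F f m (asing F σ m c) = asing F (f.comp σ) m c := by
  induction c using Finsupp.induction_linear with
  | zero => simp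
  | add x y hx hy => simp only [map_add, hx, hy]
  | single v a =>
    rw [asing_single, push_single, asing_single, ContinuousMap.comp_assoc]

theorem push_Sd {Y : Type} [TopologicalSpace Y] (f : C(X, Y)) (n : ℕ) (c : SC F X n) :
    push F f n (Sd F X n c) = Sd F Y n (push F f n c) := by
  induction c using Finsupp.induction_linear with
  | zero => simp
  | add x y hx hy => simp only [map_add, hx, hy]
  | single σ a =>
    rw [Sd_single, push_single, Sd_single, map_smul, push_asing]

theorem push_Th {Y : Type} [TopologicalSpace Y] (f : C(X, Y)) (n : ℕ) (c : SC F X n) :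
    push F f (n + 1) (Th F X n c) = Th F Y n (push F f n c) := by
  induction c using Finsupp.induction_linear with
  | zero => simp
  | add x y hx hy => simp only [map_add, hx, hy]
  | single σ a =>
    rw [Th_single, push_single, Th_single, map_smul, push_asing]

theorem S3.pow_Sd_asing {N : ℕ} (σ : Sing X N) (m k : ℕ) (c : AC F N m) :
    ((Sd F X m) ^ k) (asing F σ m c) = asing F σ m (((aSd F N m) ^ k) c) := by
  induction k with
  | zero => simp
  | succ k ih =>
    rw [pow_succ', pow_succ', Module.End.mul_apply, Module.End.mul_apply, ih, Sd_asing]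

end S3

section mesh
variable (F : Type) [Field F]

/-- the affine interpolation does not increase the mesh -/
theorem S3.dist_areal_le {N m : ℕ} (v : AS N m) (r : ℝ) (h : ∀ i j, dist (v i) (v j) ≤ r)
    (x y : stdSimplex ℝ (Fin (m + 1))) : dist (areal v x) (areal v y) ≤ r := by
  have hr : 0 ≤ r := dist_nonneg.trans (h 0 0)
  rw [Subtype.dist_eq, dist_pi_le_iff hr]
  intro j
  have hx := stdSimplex.sum_eq_one x
  have hy := stdSimplex.sum_eq_one y
  have h1 : (areal v x : Fin (N + 1) → ℝ) j - (areal v y : Fin (N + 1) → ℝ) j =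
      ∑ i, ∑ k, x i * y k * ((v i : Fin (N + 1) → ℝ) j - (v k : Fin (N + 1) → ℝ) j) := by
    have e1 : ∀ i k, x i * y k * ((v i : Fin (N + 1) → ℝ) j - (v k : Fin (N + 1) → ℝ) j) =
      (x i * (v i : Fin (N + 1) → ℝ) j) * y k - x i * (y k * (v k : Fin (N + 1) → ℝ) j) := by
      intro i k; ring
    simp_rw [e1, Finset.sum_sub_distrib, ← Finset.mul_sum, ← Finset.sum_mul, hx, hy]
    rw [areal_apply, areal_apply]
    simp
  have h2 : |(areal v x : Fin (N + 1) → ℝ) j - (areal v y : Fin (N + 1) → ℝ) j| ≤ r := by
    rw [h1]
    calc |∑ i, ∑ k, x i * y k * ((v i : Fin (N + 1) → ℝ) j - (v k : Fin (N + 1) → ℝ) j)|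
        ≤ ∑ i, ∑ k, |x i * y k * ((v i : Fin (N + 1) → ℝ) j - (v k : Fin (N + 1) → ℝ) j)| :=
          (Finset.abs_sum_le_sum_abs _ _).trans
            (Finset.sum_le_sum fun i _ => Finset.abs_sum_le_sum_abs _ _)
      _ ≤ ∑ i, ∑ k, x i * y k * r := by
          refine Finset.sum_le_sum fun i _ => Finset.sum_le_sum fun k _ => ?_
          have hnn : 0 ≤ x i * y k := mul_nonneg (x.2.1 i) (y.2.1 k)
          rw [abs_mul, abs_of_nonneg hnn]
          refine mul_le_mul_of_nonneg_left ?_ hnn
          have := (dist_pi_le_iff hr).1 (show dist (v i).1 (v k).1 ≤ r from h i k) j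
          rwa [Real.dist_eq] at this
      _ = r := by
          simp_rw [← Finset.sum_mul, ← Finset.mul_sum, hy, mul_one, hx, one_mul]
  rw [Real.dist_eq]
  exact h2

theorem S3.mem_support_aSd {N : ℕ} (m : ℕ) (c : AC F N m) (v' : AS N m)
    (h : v' ∈ (aSd F N m c).support) :
    ∃ v ∈ c.support, v' ∈ (aSd F N m (Finsupp.single v 1)).support := by
  classical
  by_contra hcon
  push Not at hcon
  have h1 : aSd F N m c = ∑ v ∈ c.support, c v • aSd F N m (Finsupp.single v 1) := by
    conv_lhs => rw [← Finsupp.sum_single c, Finsupp.sum, map_sum]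
    refine Finset.sum_congr rfl fun v _ => ?_
    rw [← map_smul, Finsupp.smul_single, smul_eq_mul, mul_one]
  rw [Finsupp.mem_support_iff, h1, Finsupp.finsetSum_apply] at h
  apply h
  refine Finset.sum_eq_zero fun v hv => ?_
  have := hcon v hv
  rw [Finsupp.notMem_support_iff] at this
  rw [Finsupp.smul_apply, this, smul_zero]

theorem S3.mesh_aSd_pow {N : ℕ} (m : ℕ) (v : AS N m) (k : ℕ) (v' : AS N m)
    (h : v' ∈ (((aSd F N m) ^ k) (Finsupp.single v 1)).support) (i j : Fin (m + 1)) :
    dist (v' i) (v' j) ≤ (m / (m + 1) : ℝ) ^ k * Metric.diam (Set.range v) := by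
  induction k generalizing v' i j with
  | zero =>
    simp only [pow_zero, Module.End.one_apply] at h
    have hv : v' = v := by
      by_contra hne
      rw [Finsupp.mem_support_iff, Finsupp.single_apply, if_neg (Ne.symm hne)] at h
      exact h rfl
    subst hv
    rw [pow_zero, one_mul]
    exact Metric.dist_le_diam_of_mem (Set.finite_range _).isBounded ⟨i, rfl⟩ ⟨j, rfl⟩
  | succ k ih =>
    rw [pow_succ', Module.End.mul_apply] at h
    obtain ⟨w, hw, hw'⟩ := mem_support_aSd F m _ v' h
    refine (mesh_aSd F N m w v' hw' i j).trans ?_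
    rw [pow_succ', mul_assoc]
    refine mul_le_mul_of_nonneg_left ?_ (by positivity)
    refine Metric.diam_le_of_forall_dist_le (by positivity) ?_
    rintro _ ⟨i', rfl⟩ _ ⟨j', rfl⟩
    exact ih w hw i' j'

/-- iterated subdivision of the identity of `Δ^n` is given by affine simplices of small diameter
(uses [TC-S2]) -/
theorem mesh_Sd (n : ℕ) (ε : ℝ) (hε : 0 < ε) : ∃ k : ℕ,
    ∀ τ ∈ (((Sd F (stdSimplex ℝ (Fin (n + 1))) n) ^ k)
      (Finsupp.single (ContinuousMap.id _ : Sing (stdSimplex ℝ (Fin (n + 1))) n) 1)).support,
      ∀ x y, dist (τ x) (τ y) ≤ ε := by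
  classical
  have hq : (n / (n + 1) : ℝ) < 1 := by
    rw [div_lt_one (by positivity)]; linarith
  have hq0 : (0 : ℝ) ≤ (n / (n + 1) : ℝ) := by positivity
  have ht : Filter.Tendsto (fun k : ℕ => (n / (n + 1) : ℝ) ^ k * Metric.diam (Set.range (vert n)))
      Filter.atTop (𝓝 (0 * Metric.diam (Set.range (vert n)))) :=
    (tendsto_pow_atTop_nhds_zero_of_lt_one hq0 hq).mul_const _
  rw [zero_mul] at ht
  obtain ⟨k, hk⟩ := (ht.eventually (ge_mem_nhds hε)).exists
  refine ⟨k, fun τ hτ x y => ?_⟩
  rw [← asing_vert F n (ContinuousMap.id _) 1, pow_Sd_asing] at hτ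
  have hτ' : τ ∈ Finset.image (fun v : AS n n => (ContinuousMap.id _ : Sing _ n).comp (areal v))
      (((aSd F n n) ^ k) (Finsupp.single (vert n) 1)).support :=
    Finsupp.mapDomain_support hτ
  obtain ⟨v, hv, rfl⟩ := Finset.mem_image.1 hτ'
  exact dist_areal_le v ε (fun i j => (mesh_aSd_pow F n (vert n) k v hv i j).trans hk) x y

end mesh

end Pool.Agent.helper73.TC
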